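import Pool.Agent.H23.GB.ZLS
import Pool.Agent.H68.GHY.Targets

/-!
Row ZLS of the board ghy: lower bound for the zeta integral of the differentiated bump function,
with the sharp exponent of the radius.
-/

namespace Pool.Agent.H57.GHY

open MeasureTheory Pool.Agent.H34.GM Pool.Agent.H34.GZ Pool.Agent.H34.GU Pool.Agent.H34.GA
open Pool.Agent.H68.GHY

theorem pf_ZLS (hZ : T_ZAD) (hI : T_BIA) : Pool.Agent.H68.GHY.T_ZLS := by
  intro m χ hm hχ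
  obtain ⟨c0, c1, hc0, hc1, hlow⟩ := Pool.Agent.H23.GB.pf_ZLS hI m χ hm hχ
  obtain ⟨C, hC, hbi⟩ := hI m χ hm hχ
  obtain ⟨K, hK, hdet⟩ := Pool.Agent.H23.GA.ZL.det_lip m
  have hK0 : 0 < K := by linarith
  have hmr : (0 : ℝ) < m + 1 := by positivity
  refine ⟨min (c0 / (m + 1)) (min c1 (1 / (2 * K))), by positivity, ?_⟩
  intro δ hδ hδ2 f mu hf hmu hnear s hs
  obtain ⟨hTg, hval⟩ := hbi δ hδ hδ2
  have h1 : δ * (1 + ‖s‖) ≤ c0 / (m + 1) := hs.trans (min_le_left _ _)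
  have h2 : δ * (1 + ‖s‖) ≤ 1 / (2 * K) := hs.trans ((min_le_right _ _).trans (min_le_right _ _))
  have hs0 := norm_nonneg s
  have hδK : δ ≤ 1 / (2 * K) := by
    have h3 : 0 ≤ δ * ‖s‖ := mul_nonneg hδ.le hs0
    linarith
  have hpos : ∀ z, bi m χ δ z ≠ 0 → 0 < z.det := by
    intro z hz
    obtain ⟨h3, -, h4, -⟩ := (hval z).2.2.1 hz
    have h5 := (hdet z h3).1
    have h6 : K * sz (z - 1) ≤ 1 / 2 := by
      calc K * sz (z - 1) ≤ K * (1 / (2 * K)) := mul_le_mul_of_nonneg_left (h4.trans hδK) hK0.le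
        _ = 1 / 2 := by field_simp
    have h7 := (abs_le.1 (h5.trans h6)).1
    linarith
  have hZ' := (hZ m hm mu f 1 hf hmu (bi m χ δ) hTg hpos s).2
  have hsm : δ * (1 + ‖s - (m : ℂ)‖) ≤ c0 := by
    have h3 : ‖s - (m : ℂ)‖ ≤ ‖s‖ + m := by
      refine (norm_sub_le _ _).trans_eq ?_
      rw [Complex.norm_natCast]
    have h4 : δ * (1 + ‖s - (m : ℂ)‖) ≤ (m + 1) * (δ * (1 + ‖s‖)) := by
      have h5 : 1 + ‖s - (m : ℂ)‖ ≤ (m + 1) * (1 + ‖s‖) := by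
        have h6 : (0 : ℝ) ≤ m * ‖s‖ := by positivity
        nlinarith
      calc δ * (1 + ‖s - (m : ℂ)‖) ≤ δ * ((m + 1) * (1 + ‖s‖)) :=
            mul_le_mul_of_nonneg_left h5 hδ.le
        _ = _ := by ring
    refine h4.trans ((mul_le_mul_of_nonneg_left h1 hmr.le).trans_eq ?_)
    field_simp
  have hnear' : ∀ z : Mat m, sz (z - 1) ≤ δ → ‖f z - ((1 : ℝ) : ℂ)‖ ≤ 1 / 4 := by
    intro z hz
    rw [Complex.ofReal_one]
    exact hnear z hz
  have hlow' := hlow f 1 1 hf one_pos (s - m) δ hδ hδ2 hsm hnear'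
  have hP : 0 ≤ ∏ i : Fin m, ∏ j, ‖s - ((i : ℕ) + 1) - mu j‖ :=
    Finset.prod_nonneg fun i _ => Finset.prod_nonneg fun j _ => norm_nonneg _
  have hδm : 0 ≤ δ ^ (m * m) := by positivity
  have hc : min (c0 / (m + 1)) (min c1 (1 / (2 * K))) ≤ c1 :=
    (min_le_right _ _).trans (min_le_left _ _)
  show _ ≤ ‖ZA (dD^[m] (bi m χ δ)) f s‖
  rw [hZ', sq m]
  calc min (c0 / (m + 1)) (min c1 (1 / (2 * K))) * δ ^ (m * m) *
        (∏ i : Fin m, ∏ j, ‖s - ((i : ℕ) + 1) - mu j‖)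
      ≤ c1 * 1 * δ ^ (m * m) * (∏ i : Fin m, ∏ j, ‖s - ((i : ℕ) + 1) - mu j‖) := by
        refine mul_le_mul_of_nonneg_right ?_ hP
        refine mul_le_mul_of_nonneg_right ?_ hδm
        rw [mul_one]
        exact hc
    _ ≤ ‖ZA (bi m χ δ) f (s - m)‖ * (∏ i : Fin m, ∏ j, ‖s - ((i : ℕ) + 1) - mu j‖) :=
        mul_le_mul_of_nonneg_right hlow' hP
    _ = _ := mul_comm _ _

end Pool.Agent.H57.GHY
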